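import Mathlib

/-!
# A billiard without cusps and a non-periodic invariant measure that is not Oseledets integrable

The table is the annulus `1 ≤ |z| ≤ 2`. The orbits with angular momentum `2 sin a = sin b`
(`a` the collision angle on the outer circle, `b` on the inner one) form two invariant circles on
which the billiard map acts as a rotation by `b - a`. As `b → π / 2` the collisions with the inner
circle become tangential and `‖DT‖ ≥ 1 / cos b` at the collision before. A countable convex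
combination of the rotation invariant measures, with `(b - a) / π` irrational and `cos b` tending to
`0` fast enough, is an invariant probability without periodic points for which `log⁺ ‖DT‖` is
not integrable.
-/

open MeasureTheory Filter Topology Set Complex
open scoped ENNReal Real ComplexConjugate

namespace Pool.Agent.Results.MP_94eb8e_an.AnnularTable

noncomputable section

/-- A phase point of a planar billiard: position and velocity, in the plane `ℂ`. -/
abbrev Phase := ℂ × ℂ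

/-- A billiard table without corner points: `Q` is compact, connected, the closure of its interior,
and its boundary is the disjoint union of the finitely many simple closed `C³` curves `γ i`,
parametrised by arclength with period `L i`, with the table on their left. -/
structure IsTable {n : ℕ} (Q : Set ℂ) (γ : Fin n → ℝ → ℂ) (L : Fin n → ℝ) : Prop where
  compact : IsCompact Q
  connected : IsConnected Q
  regular : closure (interior Q) = Q
  boundary : frontier Q = ⋃ i, range (γ i)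
  length_pos : ∀ i, 0 < L i
  smooth : ∀ i, ContDiff ℝ 3 (γ i)
  unit_speed : ∀ i r, ‖deriv (γ i) r‖ = 1
  closed : ∀ i, Function.Periodic (γ i) (L i)
  simple : ∀ i j r s, γ i r = γ j s → i = j ∧ ∃ k : ℤ, r = s + k * L i
  inward : ∀ i r, ∀ᶠ t : ℝ in 𝓝[>] 0, γ i r + t * (I * deriv (γ i) r) ∈ interior Q

/-- The phase point over the boundary curve `g` with coordinates `p = (r, φ)`: its position is
`g r`, its velocity has length one and makes the angle `φ` with the inward normal `I * g' r`. -/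
def point (g : ℝ → ℂ) (p : ℝ × ℝ) : Phase :=
  (g p.1, I * deriv g p.1 * exp (-(I * p.2)))

/-- `y` is the next collision after `x`: the particle leaves `x.1` with velocity `x.2`, stays in
the interior of the table for a time `τ > 0`, hits the boundary at `γ j r` and is reflected
elastically, i.e. its new velocity is the mirror image of `x.2` in the tangent line there. -/
def Step {n : ℕ} (Q : Set ℂ) (γ : Fin n → ℝ → ℂ) (x y : Phase) : Prop :=
  ∃ τ : ℝ, 0 < τ ∧ (∀ s : ℝ, 0 < s → s < τ → x.1 + s * x.2 ∈ interior Q) ∧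
    ∃ j r, x.1 + τ * x.2 = γ j r ∧ y = (γ j r, (deriv (γ j) r) ^ 2 * conj x.2)

open Classical in
/-- The billiard map (extended by the identity where there is no next collision). -/
def billiardMap {n : ℕ} (Q : Set ℂ) (γ : Fin n → ℝ → ℂ) (x : Phase) : Phase :=
  if h : ∃ y, Step Q γ x y then h.choose else x

/-- The entire orbit of `x`, forward and backward, exists and consists of non-tangential
collisions. -/
def IsRegular {n : ℕ} (Q : Set ℂ) (γ : Fin n → ℝ → ℂ) (x : Phase) : Prop :=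
  ∃ o : ℤ → Phase, o 0 = x ∧ ∀ k, Step Q γ (o k) (o (k + 1)) ∧
    ∃ i p, |p.2| < π / 2 ∧ point (γ i) p = o k

/-- `D` is the derivative of the billiard map at `x` in the coordinates `(r, φ)`. -/
def HasBilliardDeriv {n : ℕ} (Q : Set ℂ) (γ : Fin n → ℝ → ℂ) (x : Phase)
    (D : ℝ × ℝ →L[ℝ] ℝ × ℝ) : Prop :=
  ∃ i j p, ∃ G : ℝ × ℝ → ℝ × ℝ, |p.2| < π / 2 ∧ |(G p).2| < π / 2 ∧ point (γ i) p = x ∧
    (∀ᶠ q in 𝓝 p, billiardMap Q γ (point (γ i) q) = point (γ j) (G q)) ∧ HasFDerivAt G D p

/-! ### general facts -/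

lemma IsTable.step_unique {n : ℕ} {Q : Set ℂ} {γ : Fin n → ℝ → ℂ} {L : Fin n → ℝ}
    (h : IsTable Q γ L) {x y y' : Phase} (h1 : Step Q γ x y) (h2 : Step Q γ x y') : y = y' := by
  have key : ∀ {τ τ' : ℝ} {j r}, 0 < τ → (∀ s : ℝ, 0 < s → s < τ' → x.1 + s * x.2 ∈ interior Q) →
      x.1 + τ * x.2 = γ j r → τ' ≤ τ := by
    intro τ τ' j r h0 h1 h2
    by_contra hlt
    push Not at hlt
    have h3 := h1 τ h0 hlt
    have h4 : x.1 + τ * x.2 ∈ frontier Q := by
      rw [h.boundary, h2]
      exact mem_iUnion.2 ⟨j, mem_range_self r⟩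
    exact h4.2 h3
  obtain ⟨τ, h0, ha, j, r, hb, rfl⟩ := h1
  obtain ⟨τ', h0', ha', j', r', hb', rfl⟩ := h2
  have e : τ = τ' := le_antisymm (key h0' ha hb') (key h0 ha' hb)
  subst e
  have e2 : γ j r = γ j' r' := by rw [← hb, ← hb']
  obtain ⟨rfl, k, rfl⟩ := h.simple _ _ _ _ e2
  have hp : Function.Periodic (γ j) (k * L j) := (h.closed j).int_mul k
  have e3 : deriv (γ j) (r' + k * L j) = deriv (γ j) r' := by
    rw [← deriv_comp_add_const]
    congr 1
    funext z
    exact hp z
  rw [e2, e3]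

lemma IsTable.map_eq {n : ℕ} {Q : Set ℂ} {γ : Fin n → ℝ → ℂ} {L : Fin n → ℝ}
    (h : IsTable Q γ L) {x y : Phase} (h1 : Step Q γ x y) : billiardMap Q γ x = y := by
  have h2 : ∃ y, Step Q γ x y := ⟨y, h1⟩
  unfold billiardMap
  rw [dif_pos h2]
  exact h.step_unique h2.choose_spec h1

/-! ### the annular table -/

/-- the annulus `1 ≤ |z| ≤ 2` -/
def ann : Set ℂ := {z | 1 ≤ ‖z‖ ∧ ‖z‖ ≤ 2}

/-- the two boundary circles, the outer one counterclockwise and the inner one clockwise -/
def gam : Fin 2 → ℝ → ℂ := ![fun r => 2 * exp (I * (r / 2)), fun r => exp (-(I * r))]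

/-- the lengths of the circles -/
def len : Fin 2 → ℝ := ![4 * π, 2 * π]

lemma gam0 (r : ℝ) : gam 0 r = 2 * exp (I * (r / 2)) := rfl
lemma gam1 (r : ℝ) : gam 1 r = exp (-(I * r)) := rfl

lemma hasDeriv0 (r : ℝ) : HasDerivAt (gam 0) (I * exp (I * (r / 2))) r := by
  have h1 : HasDerivAt (fun r : ℝ => (I * ((r : ℂ) / 2))) (I * (1 / 2)) r :=
    ((Complex.ofRealCLM.hasDerivAt (x := r)).div_const 2).const_mul I
  have h2 := (h1.cexp).const_mul (2 : ℂ)
  refine h2.congr_deriv ?_
  ring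

lemma hasDeriv1 (r : ℝ) : HasDerivAt (gam 1) (-I * exp (-(I * r))) r := by
  have h1 : HasDerivAt (fun r : ℝ => (-(I * (r : ℂ)))) (-(I * 1)) r :=
    ((Complex.ofRealCLM.hasDerivAt (x := r)).const_mul I).neg
  have h2 := h1.cexp
  refine h2.congr_deriv ?_
  ring

lemma deriv0 (r : ℝ) : deriv (gam 0) r = I * exp (I * (r / 2)) := (hasDeriv0 r).deriv
lemma deriv1 (r : ℝ) : deriv (gam 1) r = -I * exp (-(I * r)) := (hasDeriv1 r).deriv

lemma norm_e0 (r : ℝ) : ‖exp (I * (r / 2))‖ = 1 := by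
  have : I * ((r : ℂ) / 2) = ((r / 2 : ℝ) : ℂ) * I := by push_cast; ring
  rw [this, norm_exp_ofReal_mul_I]

lemma norm_e1 (r : ℝ) : ‖exp (-(I * r))‖ = 1 := by
  have : -(I * (r : ℂ)) = ((-r : ℝ) : ℂ) * I := by push_cast; ring
  rw [this, norm_exp_ofReal_mul_I]

lemma norm_gam0 (r : ℝ) : ‖gam 0 r‖ = 2 := by
  rw [gam0, norm_mul, norm_e0]; simp

lemma norm_gam1 (r : ℝ) : ‖gam 1 r‖ = 1 := by
  rw [gam1, norm_e1]

lemma interior_ann : interior ann = {z | 1 < ‖z‖ ∧ ‖z‖ < 2} := by
  have e : ann = (Metric.ball 0 1)ᶜ ∩ Metric.closedBall 0 2 := by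
    ext z; simp [ann]
  rw [e, interior_inter, interior_compl, closure_ball (0 : ℂ) one_ne_zero,
    interior_closedBall (0 : ℂ) two_ne_zero]
  ext z; simp

lemma isClosed_ann : IsClosed ann := by
  have : ann = {z : ℂ | 1 ≤ ‖z‖} ∩ {z | ‖z‖ ≤ 2} := rfl
  rw [this]
  exact (isClosed_le continuous_const continuous_norm).inter
    (isClosed_le continuous_norm continuous_const)

lemma frontier_ann : frontier ann = ⋃ i, range (gam i) := by
  rw [isClosed_ann.frontier_eq, interior_ann]
  ext z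
  simp only [ann, Set.mem_sdiff, mem_ofPred_eq, mem_iUnion, mem_range, not_and, not_lt]
  constructor
  · rintro ⟨⟨h1, h2⟩, h3⟩
    rcases h1.lt_or_eq with h | h
    · refine ⟨0, 2 * arg z, ?_⟩
      have h4 : ‖z‖ = 2 := le_antisymm h2 (h3 h)
      rw [gam0]
      have := norm_mul_exp_arg_mul_I z
      rw [h4] at this
      conv_rhs => rw [← this]
      push_cast
      congr 2
      ring
    · refine ⟨1, -arg z, ?_⟩
      rw [gam1]
      have := norm_mul_exp_arg_mul_I z
      rw [← h] at this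
      conv_rhs => rw [← this]
      push_cast
      rw [one_mul]
      congr 1
      ring
  · rintro ⟨i, r, rfl⟩
    fin_cases i
    · have := norm_gam0 r
      simp only [Fin.zero_eta]
      rw [this]; norm_num
    · have := norm_gam1 r
      simp only [Fin.mk_one]
      rw [this]; norm_num

lemma isTable_ann : IsTable ann gam len where
  compact := by
    have h : ann ⊆ Metric.closedBall 0 2 := fun z hz => by simpa using hz.2
    exact (isCompact_closedBall (0 : ℂ) 2).of_isClosed_subset isClosed_ann h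
  connected := by
    have e : ann = (fun p : ℝ × ℝ => (p.1 : ℂ) * exp (p.2 * I)) '' (Icc 1 2 ×ˢ univ) := by
      ext z
      constructor
      · intro hz
        exact ⟨(‖z‖, arg z), ⟨⟨hz.1, hz.2⟩, mem_univ _⟩, norm_mul_exp_arg_mul_I z⟩
      · rintro ⟨⟨a, b⟩, ⟨⟨h1, h2⟩, -⟩, rfl⟩
        simp only at h1 h2
        have : ‖(a : ℂ) * exp (b * I)‖ = a := by
          rw [norm_mul, norm_exp_ofReal_mul_I, mul_one, norm_real, Real.norm_eq_abs,
            abs_of_nonneg (by linarith)]
        exact ⟨by simp only [this]; exact h1, by simp only [this]; exact h2⟩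
    rw [e]
    refine IsConnected.image ?_ _ ?_
    · exact (isConnected_Icc (by norm_num)).prod isConnected_univ
    · fun_prop
  regular := by
    refine subset_antisymm (isClosed_ann.closure_interior_subset) ?_
    intro z hz
    have hz0 : 0 < ‖z‖ := by linarith [hz.1]
    have hz0' : (‖z‖ : ℂ) ≠ 0 := by exact_mod_cast hz0.ne'
    let w : ℝ → ℂ := fun t => z * ((1 + t * ((3 / 2 - ‖z‖) / ‖z‖) : ℝ) : ℂ)
    have hw : Tendsto w (𝓝[>] 0) (𝓝 z) := by
      have h1 : ContinuousAt w 0 := by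
        apply Continuous.continuousAt
        fun_prop
      have h2 : w 0 = z := by simp [w]
      have h3 := h1.tendsto
      rw [h2] at h3
      exact h3.mono_left nhdsWithin_le_nhds
    refine mem_closure_of_tendsto hw ?_
    have h5 : ∀ᶠ t : ℝ in 𝓝[>] 0, t ∈ Ioo (0 : ℝ) 1 := Ioo_mem_nhdsGT one_pos
    filter_upwards [h5] with t ht
    rw [interior_ann]
    have hn : ‖w t‖ = ‖z‖ + t * (3 / 2 - ‖z‖) := by
      simp only [w]
      rw [norm_mul, norm_real, Real.norm_eq_abs]
      have h6 : 1 + t * ((3 / 2 - ‖z‖) / ‖z‖) = (‖z‖ + t * (3 / 2 - ‖z‖)) / ‖z‖ := by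
        field_simp
      rw [h6, abs_of_nonneg]
      · field_simp
      · apply div_nonneg _ hz0.le
        nlinarith [hz.1, hz.2, ht.1, ht.2]
    simp only [mem_ofPred_eq]
    rw [hn]
    constructor <;> nlinarith [hz.1, hz.2, ht.1, ht.2]
  boundary := frontier_ann
  length_pos := by
    intro i; fin_cases i <;> simp [len] <;> positivity
  smooth := by
    intro i; fin_cases i
    · show ContDiff ℝ 3 (fun r : ℝ => 2 * exp (I * (r / 2)))
      have : ContDiff ℝ 3 (fun r : ℝ => (r : ℂ)) := Complex.ofRealCLM.contDiff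
      fun_prop
    · show ContDiff ℝ 3 (fun r : ℝ => exp (-(I * r)))
      have : ContDiff ℝ 3 (fun r : ℝ => (r : ℂ)) := Complex.ofRealCLM.contDiff
      fun_prop
  unit_speed := by
    intro i r; fin_cases i
    · show ‖deriv (gam 0) r‖ = 1
      rw [deriv0, norm_mul, norm_e0]; simp
    · show ‖deriv (gam 1) r‖ = 1
      rw [deriv1, norm_mul, norm_e1]; simp
  closed := by
    intro i; fin_cases i
    · intro r
      show gam 0 (r + 4 * π) = gam 0 r
      rw [gam0, gam0]
      congr 1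
      rw [Complex.exp_eq_exp_iff_exists_int]
      refine ⟨1, ?_⟩
      push_cast; ring
    · intro r
      show gam 1 (r + 2 * π) = gam 1 r
      rw [gam1, gam1]
      rw [Complex.exp_eq_exp_iff_exists_int]
      refine ⟨-1, ?_⟩
      push_cast; ring
  simple := by
    intro i j r s h
    fin_cases i <;> fin_cases j
    · refine ⟨rfl, ?_⟩
      have h' : gam 0 r = gam 0 s := h
      rw [gam0, gam0] at h'
      have h2 := mul_left_cancel₀ (two_ne_zero) h'
      rw [Complex.exp_eq_exp_iff_exists_int] at h2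
      obtain ⟨k, hk⟩ := h2
      refine ⟨k, ?_⟩
      show r = s + k * (4 * π)
      have h3 : (r : ℂ) / 2 = s / 2 + k * (2 * π) := by
        apply mul_left_cancel₀ I_ne_zero
        rw [hk]; ring
      have h4 : r / 2 = s / 2 + k * (2 * π) := by exact_mod_cast h3
      linarith
    · exfalso
      have h' : gam 0 r = gam 1 s := h
      have := congrArg norm h'
      rw [norm_gam0, norm_gam1] at this
      norm_num at this
    · exfalso
      have h' : gam 1 r = gam 0 s := h
      have := congrArg norm h'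
      rw [norm_gam0, norm_gam1] at this
      norm_num at this
    · refine ⟨rfl, ?_⟩
      have h' : gam 1 r = gam 1 s := h
      rw [gam1, gam1] at h'
      rw [Complex.exp_eq_exp_iff_exists_int] at h'
      obtain ⟨k, hk⟩ := h'
      refine ⟨-k, ?_⟩
      show r = s + ((-k : ℤ) : ℝ) * (2 * π)
      have h3 : (r : ℂ) = s + (-k) * (2 * π) := by
        apply mul_left_cancel₀ I_ne_zero
        linear_combination -hk
      have h4 : r = s + (-k) * (2 * π) := by exact_mod_cast h3
      push_cast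
      exact h4
  inward := by
    intro i r
    have h5 : ∀ᶠ t : ℝ in 𝓝[>] 0, t ∈ Ioo (0 : ℝ) 1 := Ioo_mem_nhdsGT one_pos
    filter_upwards [h5] with t ht
    rw [interior_ann]
    fin_cases i
    · show 1 < ‖gam 0 r + t * (I * deriv (gam 0) r)‖ ∧ ‖gam 0 r + t * (I * deriv (gam 0) r)‖ < 2
      have : gam 0 r + t * (I * deriv (gam 0) r) = ((2 - t : ℝ) : ℂ) * exp (I * (r / 2)) := by
        rw [deriv0, gam0]; push_cast
        linear_combination ((t : ℂ) * exp (I * (r / 2))) * I_mul_I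
      rw [this, norm_mul, norm_e0, norm_real, Real.norm_eq_abs, abs_of_nonneg (by linarith [ht.2])]
      constructor <;> linarith [ht.1, ht.2]
    · show 1 < ‖gam 1 r + t * (I * deriv (gam 1) r)‖ ∧ ‖gam 1 r + t * (I * deriv (gam 1) r)‖ < 2
      have : gam 1 r + t * (I * deriv (gam 1) r) = ((1 + t : ℝ) : ℂ) * exp (-(I * r)) := by
        rw [deriv1, gam1]; push_cast
        linear_combination (-(t : ℂ) * exp (-(I * r))) * I_mul_I
      rw [this, norm_mul, norm_e1, norm_real, Real.norm_eq_abs, abs_of_nonneg (by linarith [ht.1])]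
      constructor <;> linarith [ht.1, ht.2]

/-! ### the dynamics in the annulus -/

/-- outer phase point at `2u`, with angle `a` -/
def outPt (a : ℝ) (u : ℂ) : Phase := (2 * u, -(u * exp (-(I * a))))

/-- inner phase point at `u`, with angle `b` -/
def inPt (b : ℝ) (u : ℂ) : Phase := (u, u * exp (I * b))

lemma point0 (r a : ℝ) : point (gam 0) (r, a) = outPt a (exp (I * (r / 2))) := by
  unfold point outPt
  rw [deriv0, gam0]
  ext1
  · rfl
  · simp only
    linear_combination (exp (I * (r / 2)) * exp (-(I * a))) * I_mul_I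

lemma point1 (r b : ℝ) : point (gam 1) (r, b) = inPt (-b) (exp (-(I * r))) := by
  unfold point inPt
  rw [deriv1, gam1]
  ext1
  · rfl
  · simp only
    push_cast
    have : I * -(b : ℂ) = -(I * b) := by ring
    rw [this]
    linear_combination (-exp (-(I * r)) * exp (-(I * b))) * I_mul_I

lemma sq_deriv0 (r : ℝ) : (deriv (gam 0) r) ^ 2 = -(gam 0 r / 2) ^ 2 := by
  rw [deriv0, gam0]
  linear_combination (exp (I * (r / 2)))^2 * I_mul_I

lemma sq_deriv1 (r : ℝ) : (deriv (gam 1) r) ^ 2 = -(gam 1 r) ^ 2 := by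
  rw [deriv1, gam1]
  linear_combination (exp (-(I * r)))^2 * I_mul_I

lemma exists_gam0 {u : ℂ} (hu : ‖u‖ = 1) : ∃ r, gam 0 r = 2 * u := by
  refine ⟨2 * arg u, ?_⟩
  rw [gam0]
  have := norm_mul_exp_arg_mul_I u
  rw [hu] at this
  conv_rhs => rw [← this]
  push_cast
  rw [one_mul]
  congr 2
  ring

lemma exists_gam1 {u : ℂ} (hu : ‖u‖ = 1) : ∃ r, gam 1 r = u := by
  refine ⟨-arg u, ?_⟩
  rw [gam1]
  have := norm_mul_exp_arg_mul_I u
  rw [hu] at this
  conv_rhs => rw [← this]
  push_cast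
  rw [one_mul]
  congr 1
  ring

/-- the pair of angles -/
structure Ang (a b : ℝ) : Prop where
  a0 : 0 < a
  ab : a < b
  bpi : b < π / 2
  sin_eq : 2 * Real.sin a = Real.sin b

lemma Ang.cosb {a b : ℝ} (h : Ang a b) : 0 < Real.cos b :=
  Real.cos_pos_of_mem_Ioo ⟨by linarith [h.a0, h.ab, Real.pi_pos], h.bpi⟩

lemma Ang.cosab {a b : ℝ} (h : Ang a b) : Real.cos b < Real.cos a :=
  Real.cos_lt_cos_of_nonneg_of_le_pi_div_two h.a0.le h.bpi.le h.ab

lemma norm_exp_I (x : ℝ) : ‖exp (I * x)‖ = 1 := by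
  rw [mul_comm, norm_exp_ofReal_mul_I]

lemma exp_I_cos (x : ℝ) : exp (I * x) = Real.cos x + Real.sin x * I := by
  rw [mul_comm, exp_mul_I]; simp

lemma normSq_form (c s t : ℝ) : ‖((c : ℂ) + s * I) - t‖ ^ 2 = (c - t) ^ 2 + s ^ 2 := by
  rw [← normSq_eq_norm_sq]
  simp [normSq_apply]
  ring

lemma exp_mul_neg (a : ℝ) : exp (I * a) * exp (-(I * a)) = 1 := by
  rw [← exp_add]; simp

lemma norm_exp_neg (a : ℝ) : ‖exp (-(I * a))‖ = 1 := by
  rw [show -(I * (a : ℂ)) = I * ((-a : ℝ) : ℂ) by push_cast; ring, norm_exp_I]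

lemma conj_exp (a : ℝ) : conj (exp (I * a)) = exp (-(I * a)) := by
  rw [← exp_conj]; simp

lemma conj_exp_neg (a : ℝ) : conj (exp (-(I * a))) = exp (I * a) := by
  rw [← exp_conj]; simp

lemma between {x : ℝ} (hx : 0 ≤ x) (h1 : 1 < x ^ 2) (h2 : x ^ 2 < 4) : 1 < x ∧ x < 2 := by
  constructor <;> nlinarith

/-- outer to inner -/
lemma step_out {a b : ℝ} (h : Ang a b) {u : ℂ} (hu : ‖u‖ = 1) :
    Step ann gam (outPt a u) (inPt b (u * exp (I * (b - a : ℝ)))) := by
  have hb := h.cosb
  have hab := h.cosab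
  have hsb : Real.sin b ^ 2 + Real.cos b ^ 2 = 1 := Real.sin_sq_add_cos_sq b
  have hsa : Real.sin a ^ 2 + Real.cos a ^ 2 = 1 := Real.sin_sq_add_cos_sq a
  have hform : ∀ s : ℝ, (outPt a u).1 + s * (outPt a u).2
      = u * exp (-(I * a)) * (((2 * Real.cos a : ℝ) : ℂ) + ((2 * Real.sin a : ℝ) : ℂ) * I - s) := by
    intro s
    simp only [outPt]
    have e1 := exp_mul_neg a
    have e2 := exp_I_cos a
    have e3 : ((2 * Real.cos a : ℝ) : ℂ) + ((2 * Real.sin a : ℝ) : ℂ) * I = 2 * exp (I * a) := by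
      rw [e2]; push_cast; ring
    rw [e3]
    linear_combination (-2 * u) * e1
  have huu : u * conj u = 1 := by
    rw [mul_conj, normSq_eq_norm_sq, hu]; simp
  refine ⟨2 * Real.cos a - Real.cos b, by linarith, ?_, ?_⟩
  · intro s hs0 hs
    rw [interior_ann, hform]
    have hn : ‖u * exp (-(I * a)) * (((2 * Real.cos a : ℝ) : ℂ) + ((2 * Real.sin a : ℝ) : ℂ) * I - s)‖ ^ 2
        = (2 * Real.cos a - s) ^ 2 + (2 * Real.sin a) ^ 2 := by
      rw [norm_mul, norm_mul, hu, norm_exp_neg, one_mul, one_mul, normSq_form]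
    refine between (norm_nonneg _) ?_ ?_
    · rw [hn, h.sin_eq]
      nlinarith
    · rw [hn]
      nlinarith
  · obtain ⟨r, hr⟩ := exists_gam1 (u := u * exp (I * (b - a : ℝ))) (by rw [norm_mul, hu, norm_exp_I, one_mul])
    refine ⟨1, r, ?_, ?_⟩
    · rw [hform, hr]
      have e1 : (((2 * Real.cos a : ℝ) : ℂ) + ((2 * Real.sin a : ℝ) : ℂ) * I
          - ((2 * Real.cos a - Real.cos b : ℝ) : ℂ)) = exp (I * b) := by
        rw [h.sin_eq, exp_I_cos]; push_cast; ring
      rw [e1]
      have e2 : exp (I * ((b - a : ℝ) : ℂ)) = exp (I * b) * exp (-(I * a)) := by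
        rw [← exp_add]; congr 1; push_cast; ring
      rw [e2]; ring
    · rw [sq_deriv1, hr]
      unfold inPt outPt
      ext1
      · rfl
      · simp only [map_neg, map_mul]
        rw [conj_exp_neg]
        have e2 : exp (I * ((b - a : ℝ) : ℂ)) = exp (I * b) * exp (-(I * a)) := by
          rw [← exp_add]; congr 1; push_cast; ring
        rw [e2]
        have e3 := exp_mul_neg a
        linear_combination (-(u * exp (I * b) ^ 2 * exp (-(I * a)) ^ 2 * exp (I * a))) * huu
          + (-(u * exp (I * b) ^ 2 * exp (-(I * a)))) * e3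

/-- inner to outer -/
lemma step_in {a b : ℝ} (h : Ang a b) {u : ℂ} (hu : ‖u‖ = 1) :
    Step ann gam (inPt b u) (outPt a (u * exp (I * (b - a : ℝ)))) := by
  have hb := h.cosb
  have hab := h.cosab
  have hsb : Real.sin b ^ 2 + Real.cos b ^ 2 = 1 := Real.sin_sq_add_cos_sq b
  have hsa : Real.sin a ^ 2 + Real.cos a ^ 2 = 1 := Real.sin_sq_add_cos_sq a
  have hform : ∀ s : ℝ, (inPt b u).1 + s * (inPt b u).2
      = u * exp (I * b) * (((Real.cos b : ℝ) : ℂ) + ((-Real.sin b : ℝ) : ℂ) * I - ((-s : ℝ) : ℂ)) := by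
    intro s
    simp only [inPt]
    have e1 := exp_mul_neg b
    have e3 : ((Real.cos b : ℝ) : ℂ) + ((-Real.sin b : ℝ) : ℂ) * I = exp (-(I * b)) := by
      rw [show -(I * (b : ℂ)) = I * ((-b : ℝ) : ℂ) by push_cast; ring, exp_I_cos]
      simp
    rw [e3]
    push_cast
    linear_combination (-u) * e1
  have huu : u * conj u = 1 := by
    rw [mul_conj, normSq_eq_norm_sq, hu]; simp
  refine ⟨2 * Real.cos a - Real.cos b, by linarith, ?_, ?_⟩
  · intro s hs0 hs
    rw [interior_ann, hform]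
    have hn : ‖u * exp (I * b) * (((Real.cos b : ℝ) : ℂ) + ((-Real.sin b : ℝ) : ℂ) * I - ((-s : ℝ) : ℂ))‖ ^ 2
        = (Real.cos b - (-s)) ^ 2 + (-Real.sin b) ^ 2 := by
      rw [norm_mul, norm_mul, hu, norm_exp_I, one_mul, one_mul, normSq_form]
    have h4 : (2 * Real.cos a) ^ 2 + Real.sin b ^ 2 = 4 := by
      rw [← h.sin_eq]; nlinarith
    refine between (norm_nonneg _) ?_ ?_
    · rw [hn]
      nlinarith
    · rw [hn]
      nlinarith
  · obtain ⟨r, hr⟩ := exists_gam0 (u := u * exp (I * (b - a : ℝ))) (by rw [norm_mul, hu, norm_exp_I, one_mul])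
    refine ⟨0, r, ?_, ?_⟩
    · rw [hform, hr]
      have e1 : (((Real.cos b : ℝ) : ℂ) + ((-Real.sin b : ℝ) : ℂ) * I
          - ((-(2 * Real.cos a - Real.cos b) : ℝ) : ℂ)) = 2 * exp (-(I * a)) := by
        rw [← h.sin_eq, show -(I * (a : ℂ)) = I * ((-a : ℝ) : ℂ) by push_cast; ring, exp_I_cos]
        simp
        ring
      rw [e1]
      have e2 : exp (I * ((b - a : ℝ) : ℂ)) = exp (I * b) * exp (-(I * a)) := by
        rw [← exp_add]; congr 1; push_cast; ring
      rw [e2]; ring
    · rw [sq_deriv0, hr]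
      unfold inPt outPt
      ext1
      · rfl
      · simp only [map_mul]
        rw [conj_exp]
        have e2 : exp (I * ((b - a : ℝ) : ℂ)) = exp (I * b) * exp (-(I * a)) := by
          rw [← exp_add]; congr 1; push_cast; ring
        rw [e2]
        have e3 := exp_mul_neg b
        linear_combination (u * exp (I * b) ^ 2 * exp (-(I * a)) ^ 2 * exp (-(I * b))) * huu
          + (u * exp (I * b) * exp (-(I * a)) ^ 2) * e3

/-! ### regularity of the orbits -/

lemma Ang.lt {a b : ℝ} (h : Ang a b) : |a| < π / 2 ∧ |-b| < π / 2 := by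
  have h0 := h.a0
  have h1 := h.ab
  have h2 := h.bpi
  rw [abs_neg, abs_of_pos h0, abs_of_pos (h0.trans h1)]
  constructor <;> linarith

lemma exists_exp {u : ℂ} (hu : ‖u‖ = 1) : ∃ t : ℝ, exp (I * t) = u := by
  refine ⟨arg u, ?_⟩
  have := norm_mul_exp_arg_mul_I u
  rw [hu] at this
  conv_rhs => rw [← this]
  push_cast
  rw [one_mul]
  congr 1
  ring

lemma exists_point0 {a : ℝ} {u : ℂ} (hu : ‖u‖ = 1) : ∃ r, point (gam 0) (r, a) = outPt a u := by
  obtain ⟨t, ht⟩ := exists_exp hu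
  refine ⟨2 * t, ?_⟩
  rw [point0]
  congr 1
  rw [← ht]
  congr 1
  push_cast
  ring

lemma exists_point1 {b : ℝ} {u : ℂ} (hu : ‖u‖ = 1) : ∃ r, point (gam 1) (r, -b) = inPt b u := by
  obtain ⟨t, ht⟩ := exists_exp hu
  refine ⟨-t, ?_⟩
  rw [point1, neg_neg]
  congr 1
  rw [← ht]
  congr 1
  push_cast
  ring

/-- the orbit -/
def orb (a b : ℝ) (u : ℂ) (k : ℤ) : Phase :=
  if Even k then outPt a (u * exp (I * (k * (b - a) : ℝ)))
  else inPt b (u * exp (I * (k * (b - a) : ℝ)))

lemma orb_step {a b : ℝ} (h : Ang a b) {u : ℂ} (hu : ‖u‖ = 1) (k : ℤ) :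
    Step ann gam (orb a b u k) (orb a b u (k + 1)) := by
  have hn : ‖u * exp (I * (k * (b - a) : ℝ))‖ = 1 := by rw [norm_mul, hu, norm_exp_I, one_mul]
  have e : u * exp (I * (((k + 1 : ℤ) : ℝ) * (b - a) : ℝ))
      = u * exp (I * (k * (b - a) : ℝ)) * exp (I * (b - a : ℝ)) := by
    rw [mul_assoc, ← exp_add]
    congr 2
    push_cast
    ring
  unfold orb
  by_cases hk : Even k
  · have hk' : ¬ Even (k + 1) := by
      rw [Int.even_add_one]; simpa using hk
    rw [if_pos hk, if_neg hk', e]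
    exact step_out h hn
  · have hk' : Even (k + 1) := by
      rw [Int.even_add_one]; exact hk
    rw [if_neg hk, if_pos hk', e]
    exact step_in h hn

lemma orb_trans {a b : ℝ} (h : Ang a b) {u : ℂ} (hu : ‖u‖ = 1) (k : ℤ) :
    ∃ i p, |p.2| < π / 2 ∧ point (gam i) p = orb a b u k := by
  have hn : ‖u * exp (I * (k * (b - a) : ℝ))‖ = 1 := by rw [norm_mul, hu, norm_exp_I, one_mul]
  unfold orb
  split_ifs
  · obtain ⟨r, hr⟩ := exists_point0 (a := a) hn
    exact ⟨0, (r, a), h.lt.1, hr⟩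
  · obtain ⟨r, hr⟩ := exists_point1 (b := b) hn
    exact ⟨1, (r, -b), h.lt.2, hr⟩

lemma regular_out {a b : ℝ} (h : Ang a b) {u : ℂ} (hu : ‖u‖ = 1) :
    IsRegular ann gam (outPt a u) := by
  refine ⟨orb a b u, ?_, fun k => ⟨orb_step h hu k, orb_trans h hu k⟩⟩
  simp [orb]

lemma regular_in {a b : ℝ} (h : Ang a b) {u : ℂ} (hu : ‖u‖ = 1) :
    IsRegular ann gam (inPt b u) := by
  have hu' : ‖u * exp (I * ((-(b - a) : ℝ) : ℂ))‖ = 1 := by rw [norm_mul, hu, norm_exp_I, one_mul]
  refine ⟨fun k => orb a b (u * exp (I * ((-(b - a) : ℝ) : ℂ))) (k + 1), ?_,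
    fun k => ⟨orb_step h hu' (k + 1), orb_trans h hu' (k + 1)⟩⟩
  simp only [orb]
  rw [if_neg (by decide)]
  congr 1
  rw [mul_assoc, ← exp_add]
  have : I * ((-(b - a) : ℝ) : ℂ) + I * ((((0 + 1 : ℤ) : ℝ) * (b - a) : ℝ) : ℂ) = 0 := by
    push_cast; ring
  rw [this, exp_zero, mul_one]

/-! ### the billiard map on the invariant sets -/

lemma map_out {a b : ℝ} (h : Ang a b) {u : ℂ} (hu : ‖u‖ = 1) :
    billiardMap ann gam (outPt a u) = inPt b (u * exp (I * (b - a : ℝ))) :=
  isTable_ann.map_eq (step_out h hu)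

lemma map_in {a b : ℝ} (h : Ang a b) {u : ℂ} (hu : ‖u‖ = 1) :
    billiardMap ann gam (inPt b u) = outPt a (u * exp (I * (b - a : ℝ))) :=
  isTable_ann.map_eq (step_in h hu)

/-- iterates along the orbit -/
lemma iterate_orb {a b : ℝ} (h : Ang a b) {u : ℂ} (hu : ‖u‖ = 1) (k : ℤ) (n : ℕ) :
    (billiardMap ann gam)^[n] (orb a b u k) = orb a b u (k + n) := by
  induction n with
  | zero => simp
  | succ n ih =>
    rw [Function.iterate_succ_apply', ih, isTable_ann.map_eq (orb_step h hu (k + n))]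
    push_cast
    rw [add_assoc]

lemma outPt_ne_inPt {a b : ℝ} {u v : ℂ} (hu : ‖u‖ = 1) (hv : ‖v‖ = 1) : outPt a u ≠ inPt b v := by
  intro h
  have h1 := congrArg (fun x : Phase => ‖x.1‖) h
  simp only [outPt, inPt, norm_mul, hu, hv] at h1
  norm_num at h1

/-- no periodic points when `(b - a) / π` is irrational -/
lemma orb_not_periodic {a b : ℝ} (h : Ang a b) (hirr : Irrational ((b - a) / π)) {u : ℂ}
    (hu : ‖u‖ = 1) (k : ℤ) {n : ℕ} (hn : 1 ≤ n) :
    (billiardMap ann gam)^[n] (orb a b u k) ≠ orb a b u k := by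
  rw [iterate_orb h hu]
  intro he
  have hu0 : u ≠ 0 := by intro h0; rw [h0] at hu; simp at hu
  have hN : ∀ k : ℤ, ‖u * exp (I * (k * (b - a) : ℝ))‖ = 1 := fun k => by
    rw [norm_mul, hu, norm_exp_I, one_mul]
  -- equality of the base points
  have key : u * exp (I * (((k + n : ℤ) : ℝ) * (b - a) : ℝ)) = u * exp (I * (k * (b - a) : ℝ)) := by
    unfold orb at he
    split_ifs at he with h1 h2 h2
    · have := congrArg Prod.fst he
      simp only [outPt] at this
      exact mul_left_cancel₀ two_ne_zero this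
    · exact absurd he (outPt_ne_inPt (hN _) (hN _))
    · exact absurd he.symm (outPt_ne_inPt (hN _) (hN _))
    · have := congrArg Prod.fst he
      simpa only [inPt] using this
  have h2 := mul_left_cancel₀ hu0 key
  rw [Complex.exp_eq_exp_iff_exists_int] at h2
  obtain ⟨m, hm⟩ := h2
  have h3 : ((((k + n : ℤ) : ℝ) * (b - a) : ℝ) : ℂ) = (k * (b - a) : ℝ) + m * (2 * π) := by
    apply mul_left_cancel₀ I_ne_zero
    rw [hm]; ring
  have h4 : (((k + n : ℤ) : ℝ) * (b - a) : ℝ) = (k * (b - a) : ℝ) + m * (2 * π) := by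
    exact_mod_cast h3
  push_cast at h4
  have h5 : (n : ℝ) * (b - a) = m * (2 * π) := by linarith
  have hn0 : (n : ℝ) ≠ 0 := by positivity
  apply hirr
  refine ⟨(2 * m / n : ℚ), ?_⟩
  push_cast
  rw [eq_div_iff Real.pi_ne_zero, div_mul_eq_mul_div, div_eq_iff hn0]
  linarith

lemma orb_zero (a b : ℝ) (u : ℂ) : orb a b u 0 = outPt a u := by simp [orb]

lemma orb_one (a b : ℝ) (u : ℂ) :
    orb a b (u * exp (I * ((-(b - a) : ℝ) : ℂ))) 1 = inPt b u := by
  simp only [orb]
  rw [if_neg (by decide)]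
  congr 1
  rw [mul_assoc, ← exp_add]
  have : I * ((-(b - a) : ℝ) : ℂ) + I * (((1 : ℤ) * (b - a) : ℝ) : ℂ) = 0 := by push_cast; ring
  rw [this, exp_zero, mul_one]

/-! ### a measurable version of the map -/

/-- explicit formula for the billiard map of the annulus between the two circles -/
def Tt (x : Phase) : Phase :=
  let t : ℝ := √(4 - (conj x.1 * x.2).im ^ 2) - √(1 - (conj x.1 * x.2).im ^ 2)
  (x.1 + t * x.2, -((x.1 + t * x.2) / ‖x.1 + t * x.2‖) ^ 2 * conj x.2)

lemma measurable_Tt : Measurable Tt := by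
  unfold Tt
  fun_prop

lemma Tt_out {a b : ℝ} (h : Ang a b) {u : ℂ} (hu : ‖u‖ = 1) :
    Tt (outPt a u) = inPt b (u * exp (I * (b - a : ℝ))) := by
  have hb := h.cosb
  have hab := h.cosab
  have huu : conj u * u = 1 := by
    rw [mul_comm, mul_conj, normSq_eq_norm_sq, hu]; simp
  have e0 : exp (-(I * a)) = Real.cos a - Real.sin a * I := by
    rw [show -(I * (a : ℂ)) = I * ((-a : ℝ) : ℂ) by push_cast; ring, exp_I_cos]
    simp; ring
  have him : (conj (outPt a u).1 * (outPt a u).2).im = 2 * Real.sin a := by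
    simp only [outPt, map_mul]
    have : conj (2 : ℂ) * conj u * -(u * exp (-(I * a))) = -2 * exp (-(I * a)) := by
      rw [show conj (2 : ℂ) = 2 from map_ofNat _ 2]
      linear_combination (-2 * exp (-(I * a))) * huu
    rw [this, e0]
    simp [Complex.sin_ofReal_re]
  have s1 : √(4 - (2 * Real.sin a) ^ 2) = 2 * Real.cos a := by
    rw [show 4 - (2 * Real.sin a) ^ 2 = (2 * Real.cos a) ^ 2 by
      nlinarith [Real.sin_sq_add_cos_sq a]]
    exact Real.sqrt_sq (by linarith)
  have s2 : √(1 - (2 * Real.sin a) ^ 2) = Real.cos b := by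
    rw [h.sin_eq, show 1 - (Real.sin b) ^ 2 = (Real.cos b) ^ 2 by
      nlinarith [Real.sin_sq_add_cos_sq b]]
    exact Real.sqrt_sq hb.le
  have hq : (outPt a u).1 + ((2 * Real.cos a - Real.cos b : ℝ) : ℂ) * (outPt a u).2
      = u * exp (I * (b - a : ℝ)) := by
    simp only [outPt]
    have e1 := exp_mul_neg a
    have e2 : exp (I * ((b - a : ℝ) : ℂ)) = exp (I * b) * exp (-(I * a)) := by
      rw [← exp_add]; congr 1; push_cast; ring
    have e3 : exp (I * a) = Real.cos a + Real.sin a * I := exp_I_cos a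
    have e4 : exp (I * b) = Real.cos b + 2 * Real.sin a * I := by
      rw [exp_I_cos b, ← h.sin_eq]; push_cast; ring
    rw [e2, e4]
    rw [e3] at e1
    push_cast at e1 ⊢
    linear_combination (-2 * u) * e1
  unfold Tt
  simp only [him, s1, s2]
  rw [hq]
  have hn : ‖u * exp (I * (b - a : ℝ))‖ = 1 := by rw [norm_mul, hu, norm_exp_I, one_mul]
  rw [hn]
  unfold inPt outPt
  ext1
  · rfl
  · simp only [map_neg, map_mul]
    rw [conj_exp_neg]
    have e2 : exp (I * ((b - a : ℝ) : ℂ)) = exp (I * b) * exp (-(I * a)) := by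
      rw [← exp_add]; congr 1; push_cast; ring
    rw [e2]
    have e3 := exp_mul_neg a
    push_cast
    rw [div_one]
    linear_combination (u * exp (I * b) ^ 2 * exp (-(I * a)) ^ 2 * exp (I * a)) * huu
      + (u * exp (I * b) ^ 2 * exp (-(I * a))) * e3

lemma Tt_in {a b : ℝ} (h : Ang a b) {u : ℂ} (hu : ‖u‖ = 1) :
    Tt (inPt b u) = outPt a (u * exp (I * (b - a : ℝ))) := by
  have hb := h.cosb
  have hab := h.cosab
  have huu : conj u * u = 1 := by
    rw [mul_comm, mul_conj, normSq_eq_norm_sq, hu]; simp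
  have him : (conj (inPt b u).1 * (inPt b u).2).im = Real.sin b := by
    simp only [inPt]
    have : conj u * (u * exp (I * b)) = exp (I * b) := by
      linear_combination (exp (I * b)) * huu
    rw [this, exp_I_cos]
    simp [Complex.sin_ofReal_re]
  have s1 : √(4 - (Real.sin b) ^ 2) = 2 * Real.cos a := by
    rw [← h.sin_eq, show 4 - (2 * Real.sin a) ^ 2 = (2 * Real.cos a) ^ 2 by
      nlinarith [Real.sin_sq_add_cos_sq a]]
    exact Real.sqrt_sq (by linarith)
  have s2 : √(1 - (Real.sin b) ^ 2) = Real.cos b := by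
    rw [show 1 - (Real.sin b) ^ 2 = (Real.cos b) ^ 2 by
      nlinarith [Real.sin_sq_add_cos_sq b]]
    exact Real.sqrt_sq hb.le
  have hq : (inPt b u).1 + ((2 * Real.cos a - Real.cos b : ℝ) : ℂ) * (inPt b u).2
      = 2 * (u * exp (I * (b - a : ℝ))) := by
    simp only [inPt]
    have e1 := exp_mul_neg b
    have e2 : exp (I * ((b - a : ℝ) : ℂ)) = exp (I * b) * exp (-(I * a)) := by
      rw [← exp_add]; congr 1; push_cast; ring
    have e3 : exp (-(I * a)) = Real.cos a - Real.sin a * I := by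
      rw [show -(I * (a : ℂ)) = I * ((-a : ℝ) : ℂ) by push_cast; ring, exp_I_cos]
      simp; ring
    have e4 : exp (-(I * b)) = Real.cos b - 2 * Real.sin a * I := by
      rw [show -(I * (b : ℂ)) = I * ((-b : ℝ) : ℂ) by push_cast; ring, exp_I_cos,
        Real.cos_neg, Real.sin_neg, ← h.sin_eq]
      push_cast; ring
    rw [e2, e3]
    rw [e4] at e1
    push_cast at e1 ⊢
    linear_combination (-u) * e1
  unfold Tt
  simp only [him, s1, s2]
  rw [hq]
  have hn : ‖2 * (u * exp (I * (b - a : ℝ)))‖ = 2 := by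
    rw [norm_mul, norm_mul, hu, norm_exp_I]; simp
  rw [hn]
  unfold inPt outPt
  ext1
  · rfl
  · simp only [map_mul]
    rw [conj_exp]
    have e2 : exp (I * ((b - a : ℝ) : ℂ)) = exp (I * b) * exp (-(I * a)) := by
      rw [← exp_add]; congr 1; push_cast; ring
    rw [e2]
    have e3 := exp_mul_neg b
    push_cast
    rw [mul_div_cancel_left₀ _ (two_ne_zero)]
    linear_combination (-(u * exp (I * b) ^ 2 * exp (-(I * a)) ^ 2 * exp (-(I * b)))) * huu
      + (-(u * exp (I * b) * exp (-(I * a)) ^ 2)) * e3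

/-! ### the derivative -/

/-- the local coordinate form of the map at an outer point -/
def G0 (p : ℝ × ℝ) : ℝ × ℝ :=
  (-(p.1 / 2 + Real.arcsin (2 * Real.sin p.2) - p.2), -Real.arcsin (2 * Real.sin p.2))

/-- the local coordinate form of the map at an inner point -/
def G1 (p : ℝ × ℝ) : ℝ × ℝ :=
  (2 * (-p.1 + (-p.2) - Real.arcsin (Real.sin (-p.2) / 2)), Real.arcsin (Real.sin (-p.2) / 2))

lemma ang_of_a {a : ℝ} (h0 : 0 < a) (h1 : a < π / 2) (h2 : 2 * Real.sin a < 1) :
    Ang a (Real.arcsin (2 * Real.sin a)) := by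
  have hs : 0 < Real.sin a := Real.sin_pos_of_pos_of_lt_pi h0 (by linarith [Real.pi_pos])
  refine ⟨h0, ?_, ?_, ?_⟩
  · rw [Real.lt_arcsin_iff_sin_lt ⟨by linarith, h1.le⟩ ⟨by linarith, h2.le⟩]
    linarith
  · rw [Real.arcsin_lt_pi_div_two]; exact h2
  · rw [Real.sin_arcsin (by linarith) h2.le]

lemma ang_of_b {b : ℝ} (h0 : 0 < b) (h1 : b < π / 2) : Ang (Real.arcsin (Real.sin b / 2)) b := by
  have hs : 0 < Real.sin b := Real.sin_pos_of_pos_of_lt_pi h0 (by linarith [Real.pi_pos])
  have hs1 : Real.sin b ≤ 1 := Real.sin_le_one b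
  refine ⟨?_, ?_, h1, ?_⟩
  · rw [Real.arcsin_pos]; linarith
  · rw [Real.arcsin_lt_iff_lt_sin ⟨by linarith, by linarith⟩ ⟨by linarith [Real.pi_pos], h1.le⟩]
    linarith
  · rw [Real.sin_arcsin (by linarith) (by linarith)]
    ring

lemma G0_eq {p : ℝ × ℝ} (h0 : 0 < p.2) (h1 : p.2 < π / 2) (h2 : 2 * Real.sin p.2 < 1) :
    billiardMap ann gam (point (gam 0) p) = point (gam 1) (G0 p) := by
  obtain ⟨r, a⟩ := p
  simp only at h0 h1 h2
  have hA := ang_of_a h0 h1 h2
  rw [point0, map_out hA (norm_e0 r), G0, point1, neg_neg]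
  congr 1
  rw [← exp_add]
  congr 1
  push_cast
  ring

lemma G1_eq {p : ℝ × ℝ} (h0 : 0 < -p.2) (h1 : -p.2 < π / 2) :
    billiardMap ann gam (point (gam 1) p) = point (gam 0) (G1 p) := by
  obtain ⟨r, a⟩ := p
  simp only at h0 h1
  have hA := ang_of_b h0 h1
  rw [point1, map_in hA (norm_e1 r), G1, point0]
  congr 1
  rw [← exp_add]
  congr 1
  push_cast
  ring

lemma G0_hasFDerivAt {p : ℝ × ℝ} (h0 : 0 < p.2) (h1 : p.2 < π / 2) (h2 : 2 * Real.sin p.2 < 1) :
    DifferentiableAt ℝ G0 p := by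
  have hs : 0 < Real.sin p.2 := Real.sin_pos_of_pos_of_lt_pi h0 (by linarith [Real.pi_pos])
  have hd : DifferentiableAt ℝ Real.arcsin (2 * Real.sin p.2) :=
    Real.differentiableAt_arcsin.2 ⟨by linarith, by linarith⟩
  have hc : DifferentiableAt ℝ (fun p : ℝ × ℝ => Real.arcsin (2 * Real.sin p.2)) p := by
    have h3 : DifferentiableAt ℝ (fun p : ℝ × ℝ => 2 * Real.sin p.2) p := by fun_prop
    exact DifferentiableAt.comp (f := fun p : ℝ × ℝ => 2 * Real.sin p.2) p hd h3
  unfold G0
  fun_prop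

lemma G1_hasFDerivAt {p : ℝ × ℝ} (h0 : 0 < -p.2) (h1 : -p.2 < π / 2) :
    DifferentiableAt ℝ G1 p := by
  have hs : 0 < Real.sin (-p.2) := Real.sin_pos_of_pos_of_lt_pi h0 (by linarith [Real.pi_pos])
  have hs1 : Real.sin (-p.2) ≤ 1 := Real.sin_le_one _
  have hd : DifferentiableAt ℝ Real.arcsin (Real.sin (-p.2) / 2) :=
    Real.differentiableAt_arcsin.2 ⟨by linarith, by linarith⟩
  have hc : DifferentiableAt ℝ (fun p : ℝ × ℝ => Real.arcsin (Real.sin (-p.2) / 2)) p := by
    have h3 : DifferentiableAt ℝ (fun p : ℝ × ℝ => Real.sin (-p.2) / 2) p := by fun_prop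
    exact DifferentiableAt.comp (f := fun p : ℝ × ℝ => Real.sin (-p.2) / 2) p hd h3
  unfold G1
  fun_prop

lemma Ang.two_sin_lt {a b : ℝ} (h : Ang a b) : 2 * Real.sin a < 1 := by
  rw [h.sin_eq]
  have h1 := h.cosb
  have h2 := Real.sin_sq_add_cos_sq b
  nlinarith [Real.sin_le_one b]

lemma Ang.arcsin_eq {a b : ℝ} (h : Ang a b) : Real.arcsin (2 * Real.sin a) = b := by
  rw [h.sin_eq, Real.arcsin_sin (by linarith [h.a0, h.ab, Real.pi_pos]) h.bpi.le]

lemma deriv_out {a b : ℝ} (h : Ang a b) {u : ℂ} (hu : ‖u‖ = 1) :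
    ∃ D, HasBilliardDeriv ann gam (outPt a u) D := by
  obtain ⟨r, hr⟩ := exists_point0 (a := a) hu
  have h1 : a < π / 2 := h.ab.trans h.bpi
  have h2 := h.two_sin_lt
  have hd := G0_hasFDerivAt (p := (r, a)) h.a0 h1 h2
  refine ⟨_, 0, 1, (r, a), G0, h.lt.1, ?_, hr, ?_, hd.hasFDerivAt⟩
  · simp only [G0, h.arcsin_eq]
    exact h.lt.2
  · have e1 : ∀ᶠ q : ℝ × ℝ in 𝓝 (r, a), 0 < q.2 :=
      (isOpen_lt continuous_const continuous_snd).mem_nhds h.a0
    have e2 : ∀ᶠ q : ℝ × ℝ in 𝓝 (r, a), q.2 < π / 2 :=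
      (isOpen_lt continuous_snd continuous_const).mem_nhds h1
    have e3 : ∀ᶠ q : ℝ × ℝ in 𝓝 (r, a), 2 * Real.sin q.2 < 1 := by
      have : Continuous fun q : ℝ × ℝ => 2 * Real.sin q.2 := by fun_prop
      exact (isOpen_lt this continuous_const).mem_nhds h2
    filter_upwards [e1, e2, e3] with q h3 h4 h5
    exact G0_eq h3 h4 h5

lemma deriv_in {a b : ℝ} (h : Ang a b) {u : ℂ} (hu : ‖u‖ = 1) :
    ∃ D, HasBilliardDeriv ann gam (inPt b u) D := by
  obtain ⟨r, hr⟩ := exists_point1 (b := b) hu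
  have h0 : 0 < b := h.a0.trans h.ab
  have h0' : 0 < -(-b) := by linarith
  have h1' : -(-b) < π / 2 := by linarith [h.bpi]
  have hd := G1_hasFDerivAt (p := (r, -b)) h0' h1'
  refine ⟨_, 1, 0, (r, -b), G1, h.lt.2, ?_, hr, ?_, hd.hasFDerivAt⟩
  · simp only [G1, neg_neg]
    have hA := ang_of_b h0 h.bpi
    exact hA.lt.1
  · have e1 : ∀ᶠ q : ℝ × ℝ in 𝓝 (r, -b), 0 < -q.2 :=
      (isOpen_lt continuous_const (continuous_snd.neg)).mem_nhds h0'
    have e2 : ∀ᶠ q : ℝ × ℝ in 𝓝 (r, -b), -q.2 < π / 2 :=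
      (isOpen_lt (continuous_snd.neg) continuous_const).mem_nhds h1'
    filter_upwards [e1, e2] with q h3 h4
    exact G1_eq h3 h4

/-- angles in the open interval are determined by the phase point -/
lemma angle_unique {x y : ℝ} (hx : |x| < π / 2) (hy : |y| < π / 2)
    (h : exp (-(I * x)) = exp (-(I * y))) : x = y := by
  rw [Complex.exp_eq_exp_iff_exists_int] at h
  obtain ⟨k, hk⟩ := h
  have h3 : (x : ℂ) = y - k * (2 * π) := by
    apply mul_left_cancel₀ I_ne_zero
    linear_combination -hk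
  have h4 : x = y - k * (2 * π) := by exact_mod_cast h3
  rw [abs_lt] at hx hy
  have hpi := Real.pi_pos
  have hk0 : k = 0 := by
    have h5 : |(k : ℝ)| < 1 := by
      rw [abs_lt]
      constructor
      · by_contra hc
        push Not at hc
        nlinarith
      · by_contra hc
        push Not at hc
        nlinarith
    have h6 : |k| < 1 := by exact_mod_cast h5
    exact Int.abs_lt_one_iff.1 h6
  rw [hk0] at h4
  simpa using h4

/-- the lower bound for the norm of the derivative at outer points -/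
lemma norm_deriv_ge {a b : ℝ} (h : Ang a b) {u : ℂ} (hu : ‖u‖ = 1) {D : ℝ × ℝ →L[ℝ] ℝ × ℝ}
    (hD : HasBilliardDeriv ann gam (outPt a u) D) : 1 / Real.cos b ≤ ‖D‖ := by
  obtain ⟨i, j, p, G, hp, hGp, hx, hev, hG⟩ := hD
  obtain ⟨r, c⟩ := p
  simp only at hp
  -- the base curve is the outer one
  have hi : i = 0 := by
    fin_cases i
    · rfl
    · exfalso
      have h1 : point (gam 1) (r, c) = outPt a u := hx
      rw [point1] at h1
      exact outPt_ne_inPt hu (norm_e1 r) h1.symm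
  subst hi
  rw [point0] at hx
  have hu1 : exp (I * (r / 2)) = u := by
    have := congrArg Prod.fst hx
    simp only [outPt] at this
    exact mul_left_cancel₀ two_ne_zero this
  have hc : c = a := by
    have h1 := congrArg Prod.snd hx
    simp only [outPt, hu1] at h1
    have hu0 : u ≠ 0 := by intro h0; rw [h0] at hu; simp at hu
    have h2 := mul_left_cancel₀ hu0 (neg_injective h1)
    exact angle_unique hp h.lt.1 h2
  subst hc
  have h1 : c < π / 2 := h.ab.trans h.bpi
  have h2 := h.two_sin_lt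
  have e1 : ∀ᶠ q : ℝ × ℝ in 𝓝 (r, c), 0 < q.2 :=
    (isOpen_lt continuous_const continuous_snd).mem_nhds h.a0
  have e2 : ∀ᶠ q : ℝ × ℝ in 𝓝 (r, c), q.2 < π / 2 :=
    (isOpen_lt continuous_snd continuous_const).mem_nhds h1
  have e3 : ∀ᶠ q : ℝ × ℝ in 𝓝 (r, c), 2 * Real.sin q.2 < 1 := by
    have : Continuous fun q : ℝ × ℝ => 2 * Real.sin q.2 := by fun_prop
    exact (isOpen_lt this continuous_const).mem_nhds h2
  have e4 : ∀ᶠ q in 𝓝 (r, c), |(G q).2| < π / 2 := by
    have h3 : ContinuousAt (fun q => |(G q).2|) (r, c) :=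
      (continuous_abs.continuousAt).comp (continuous_snd.continuousAt.comp hG.continuousAt)
    exact h3.eventually (Iio_mem_nhds hGp)
  have key : (fun q => (G q).2) =ᶠ[𝓝 (r, c)] fun q => (G0 q).2 := by
    filter_upwards [e1, e2, e3, e4, hev] with q h3 h4 h5 h6 h7
    rw [G0_eq h3 h4 h5] at h7
    have hj : j = 1 := by
      fin_cases j
      · exfalso
        have h8 : point (gam 1) (G0 q) = point (gam 0) (G q) := h7
        rw [show G0 q = ((G0 q).1, (G0 q).2) from rfl, show G q = ((G q).1, (G q).2) from rfl,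
          point0, point1] at h8
        exact outPt_ne_inPt (norm_e0 _) (norm_e1 _) h8.symm
      · rfl
    subst hj
    have hA := ang_of_a h3 h4 h5
    have h9 : |(G0 q).2| < π / 2 := hA.lt.2
    rw [show G0 q = ((G0 q).1, (G0 q).2) from rfl, show G q = ((G q).1, (G q).2) from rfl,
          point1, point1] at h7
    have h10 := congrArg Prod.fst h7
    have h11 := congrArg Prod.snd h7
    simp only [inPt] at h10 h11
    rw [h10] at h11
    have h12 := mul_left_cancel₀ (exp_ne_zero _) h11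
    refine (angle_unique h9 h6 ?_).symm
    rw [show -(I * ((G0 q).2 : ℂ)) = I * ((-(G0 q).2 : ℝ) : ℂ) by push_cast; ring,
      show -(I * ((G q).2 : ℂ)) = I * ((-(G q).2 : ℝ) : ℂ) by push_cast; ring]
    exact h12
  -- differentiate along the second coordinate
  have hline : HasDerivAt (fun t : ℝ => ((r, t) : ℝ × ℝ)) ((0, 1) : ℝ × ℝ) c :=
    (hasDerivAt_const c r).prodMk (hasDerivAt_id c)
  have hG2 : HasDerivAt (fun t : ℝ => (G (r, t)).2) (D (0, 1)).2 c := by
    have h3 : HasDerivAt (fun t : ℝ => G (r, t)) (D (0, 1)) c := by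
      have := HasFDerivAt.comp_hasDerivAt (f := fun t : ℝ => ((r, t) : ℝ × ℝ)) c hG hline
      exact this
    exact h3.snd
  have hG02 : HasDerivAt (fun t : ℝ => (G0 (r, t)).2) (-(2 * Real.cos c / Real.cos b)) c := by
    have hs0 : 0 < Real.sin c := Real.sin_pos_of_pos_of_lt_pi h.a0 (by linarith [Real.pi_pos])
    have hd := Real.hasDerivAt_arcsin (x := 2 * Real.sin c) (by linarith) (by linarith)
    have hsin : HasDerivAt (fun t : ℝ => 2 * Real.sin t) (2 * Real.cos c) c :=
      (Real.hasDerivAt_sin c).const_mul 2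
    have hcomp := (HasDerivAt.comp c hd hsin).neg
    have s2 : √(1 - (2 * Real.sin c) ^ 2) = Real.cos b := by
      rw [h.sin_eq, show 1 - (Real.sin b) ^ 2 = (Real.cos b) ^ 2 by
        nlinarith [Real.sin_sq_add_cos_sq b]]
      exact Real.sqrt_sq h.cosb.le
    rw [s2] at hcomp
    refine hcomp.congr_deriv ?_
    ring
  have hcurve : Tendsto (fun t : ℝ => ((r, t) : ℝ × ℝ)) (𝓝 c) (𝓝 (r, c)) :=
    hline.continuousAt.tendsto
  have heq : (fun t : ℝ => (G (r, t)).2) =ᶠ[𝓝 c] fun t : ℝ => (G0 (r, t)).2 :=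
    hcurve.eventually key
  have hval : (D (0, 1)).2 = -(2 * Real.cos c / Real.cos b) :=
    (hG2.congr_of_eventuallyEq heq.symm).unique hG02
  have hcos : 1 ≤ 2 * Real.cos c := by
    have h3 := Real.sin_sq_add_cos_sq c
    have h4 : 0 < Real.cos c := h.cosb.trans h.cosab
    have hs0 : 0 < Real.sin c := Real.sin_pos_of_pos_of_lt_pi h.a0 (by linarith [Real.pi_pos])
    nlinarith
  have hb := h.cosb
  calc 1 / Real.cos b ≤ 2 * Real.cos c / Real.cos b := by gcongr
    _ = |(D (0, 1)).2| := by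
        rw [hval, abs_neg, abs_of_nonneg]
        positivity
    _ ≤ ‖D (0, 1)‖ := by rw [← Real.norm_eq_abs]; exact norm_snd_le _
    _ ≤ ‖D‖ * ‖((0, 1) : ℝ × ℝ)‖ := D.le_opNorm _
    _ = ‖D‖ := by simp

/-! ### angles with irrational rotation number, close to tangency -/

lemma exists_ang {ε : ℝ} (hε : 0 < ε) :
    ∃ a b : ℝ, Ang a b ∧ Irrational ((b - a) / π) ∧ Real.cos b ≤ ε := by
  have hpi := Real.pi_pos
  obtain ⟨x, hx, hx1, hx2⟩ := exists_irrational_btwn
    (x := max (1 / 6) (1 / 3 - ε / (2 * π))) (y := 1 / 3)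
    (max_lt (by norm_num) (by have : 0 < ε / (2 * π) := by positivity
                              linarith))
  have hx3 : 1 / 6 < x := lt_of_le_of_lt (le_max_left _ _) hx1
  have hx4 : 1 / 3 - ε / (2 * π) < x := lt_of_le_of_lt (le_max_right _ _) hx1
  obtain ⟨d, hd⟩ : ∃ d, d = π * x := ⟨_, rfl⟩
  have hd1 : π / 6 < d := by rw [hd]; nlinarith
  have hd2 : d < π / 3 := by rw [hd]; nlinarith
  have hd3 : 2 * (π / 3 - d) ≤ ε := by
    rw [hd]
    have h1 : ε / (2 * π) * (2 * π) = ε := by field_simp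
    nlinarith
  have hc : 0 < Real.cos d - 1 / 2 := by
    have := Real.cos_lt_cos_of_nonneg_of_le_pi_div_two (x := d) (y := π / 3) (by linarith)
      (by linarith) hd2
    rw [Real.cos_pi_div_three] at this
    linarith
  have hsd : 1 / 2 < Real.sin d := by
    have := Real.sin_lt_sin_of_lt_of_le_pi_div_two (x := π / 6) (y := d) (by linarith)
      (by linarith) hd1
    rw [Real.sin_pi_div_six] at this
    exact this
  obtain ⟨b, hb⟩ : ∃ b, b = Real.arctan (Real.sin d / (Real.cos d - 1 / 2)) := ⟨_, rfl⟩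
  have hb0 : 0 < b := by
    rw [hb, Real.arctan_pos]
    exact div_pos (by linarith) hc
  have hb1 : b < π / 2 := by rw [hb]; exact Real.arctan_lt_pi_div_two _
  have hcb : 0 < Real.cos b := Real.cos_pos_of_mem_Ioo ⟨by linarith, hb1⟩
  have hsb : 0 < Real.sin b := Real.sin_pos_of_pos_of_lt_pi hb0 (by linarith)
  have htan : Real.sin b * (Real.cos d - 1 / 2) = Real.cos b * Real.sin d := by
    have h1 : Real.tan b = Real.sin d / (Real.cos d - 1 / 2) := by rw [hb, Real.tan_arctan]
    rw [Real.tan_eq_sin_div_cos, div_eq_div_iff hcb.ne' hc.ne'] at h1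
    linarith
  have hsin : 2 * Real.sin (b - d) = Real.sin b := by
    rw [Real.sin_sub]; linarith
  refine ⟨b - d, b, ⟨?_, by linarith, hb1, hsin⟩, ?_, ?_⟩
  · by_contra hneg
    push Not at hneg
    have h1 := Real.sin_nonpos_of_nonpos_of_neg_pi_le hneg (by linarith)
    linarith
  · have : (b - (b - d)) / π = x := by
      rw [hd]; field_simp; ring
    rw [this]; exact hx
  · -- cos b ≤ 2 (cos d - 1 / 2) ≤ 2 (π / 3 - d) ≤ ε
    have h1 : Real.cos d - 1 / 2 ≤ π / 3 - d := by
      have h2 : |Real.cos d - Real.cos (π / 3)| ≤ |d - π / 3| := by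
        have := Real.abs_cos_sub_cos_le d (π / 3)
        exact this
      rw [Real.cos_pi_div_three, abs_of_pos hc, abs_of_neg (by linarith)] at h2
      linarith
    have h3 : Real.sin b ≤ 1 := Real.sin_le_one b
    nlinarith

/-! ### the measure -/

local instance : MeasurableSpace Circle := borel Circle
local instance : BorelSpace Circle := ⟨rfl⟩

/-- the rotation invariant probability on the circle -/
def lam : Measure Circle := Measure.haarMeasure ⊤

instance : IsProbabilityMeasure lam := ⟨Measure.haarMeasure_self⟩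

instance : lam.IsMulLeftInvariant := by unfold lam; infer_instance

def fo (a : ℝ) (z : Circle) : Phase := outPt a z
def fi (b : ℝ) (z : Circle) : Phase := inPt b z

lemma continuous_fo (a : ℝ) : Continuous (fo a) := by
  unfold fo outPt
  have : Continuous fun z : Circle => (z : ℂ) := continuous_subtype_val
  fun_prop

lemma continuous_fi (b : ℝ) : Continuous (fi b) := by
  unfold fi inPt
  have : Continuous fun z : Circle => (z : ℂ) := continuous_subtype_val
  fun_prop

/-- the (doubled) invariant measure of the orbits with the angles `a`, `b` -/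
def kap (a b : ℝ) : Measure Phase := lam.map (fo a) + lam.map (fi b)

lemma ae_kap {a b : ℝ} {P : Phase → Prop} (ho : ∀ z : Circle, P (fo a z))
    (hi : ∀ z : Circle, P (fi b z)) : ∀ᵐ x ∂(kap a b), P x := by
  have key : ∀ f : Circle → Phase, Continuous f → (∀ z, P (f z)) → ∀ᵐ x ∂(lam.map f), P x := by
    intro f hf hP
    have hm : MeasurableSet (range f) := (isCompact_range hf).measurableSet
    have h1 : ∀ᵐ x ∂(lam.map f), x ∈ range f :=
      (ae_map_iff (p := fun x => x ∈ range f) hf.measurable.aemeasurable hm).2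
        (Eventually.of_forall fun z => mem_range_self z)
    filter_upwards [h1] with x hx
    obtain ⟨z, rfl⟩ := hx
    exact hP z
  unfold kap
  rw [ae_add_measure_iff]
  exact ⟨key _ (continuous_fo a) ho, key _ (continuous_fi b) hi⟩

lemma map_Tt_kap {a b : ℝ} (h : Ang a b) : (kap a b).map Tt = kap a b := by
  obtain ⟨w, hw⟩ : ∃ w : Circle, w = Circle.exp (b - a) := ⟨_, rfl⟩
  have hw' : (w : ℂ) = exp (I * (b - a : ℝ)) := by
    rw [hw, Circle.coe_exp, mul_comm]
  have h1 : Tt ∘ fo a = fi b ∘ (fun z => w * z) := by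
    funext z
    simp only [Function.comp, fo, fi]
    rw [Tt_out h (Circle.norm_coe z), Circle.coe_mul, hw', mul_comm]
  have h2 : Tt ∘ fi b = fo a ∘ (fun z => w * z) := by
    funext z
    simp only [Function.comp, fo, fi]
    rw [Tt_in h (Circle.norm_coe z), Circle.coe_mul, hw', mul_comm]
  have hm : Measurable fun z : Circle => w * z := (continuous_const_mul w).measurable
  have ho := (continuous_fo a).measurable
  have hi := (continuous_fi b).measurable
  have h3 : (lam.map (fo a)).map Tt = lam.map (fi b) := by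
    rw [Measure.map_map measurable_Tt ho, h1, ← Measure.map_map hi hm, map_mul_left_eq_self]
  have h4 : (lam.map (fi b)).map Tt = lam.map (fo a) := by
    rw [Measure.map_map measurable_Tt hi, h2, ← Measure.map_map ho hm, map_mul_left_eq_self]
  unfold kap
  rw [Measure.map_add _ _ measurable_Tt, h3, h4, add_comm]

lemma exists_seq : ∃ A B : ℕ → ℝ, ∀ n, Ang (A n) (B n) ∧ Irrational ((B n - A n) / π) ∧
    Real.cos (B n) ≤ Real.exp (-2 ^ (n + 2)) := by
  have : ∀ n : ℕ, ∃ a b : ℝ, Ang a b ∧ Irrational ((b - a) / π) ∧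
      Real.cos b ≤ Real.exp (-2 ^ (n + 2)) := fun n => exists_ang (Real.exp_pos _)
  choose A B h using this
  exact ⟨A, B, h⟩

/-- the invariant probability: a countable convex combination -/
def mix (A B : ℕ → ℝ) : Measure Phase :=
  Measure.sum fun n => ((2 : ℝ≥0∞)⁻¹ ^ (n + 2)) • kap (A n) (B n)

lemma ae_mix {A B : ℕ → ℝ} {P : Phase → Prop} (ho : ∀ n (z : Circle), P (fo (A n) z))
    (hi : ∀ n (z : Circle), P (fi (B n) z)) : ∀ᵐ x ∂(mix A B), P x := by
  unfold mix
  rw [Measure.ae_sum_iff]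
  intro n
  exact Measure.ae_smul_measure (ae_kap (ho n) (hi n)) _

lemma isProb_mix (A B : ℕ → ℝ) : IsProbabilityMeasure (mix A B) := by
  constructor
  unfold mix
  rw [Measure.sum_apply _ MeasurableSet.univ]
  have h1 : ∀ n, (((2 : ℝ≥0∞)⁻¹ ^ (n + 2)) • kap (A n) (B n)) univ = (2 : ℝ≥0∞)⁻¹ ^ (n + 1) := by
    intro n
    have h2 : (kap (A n) (B n)) univ = 2 := by
      unfold kap
      rw [Measure.add_apply, Measure.map_apply (continuous_fo _).measurable MeasurableSet.univ,
        Measure.map_apply (continuous_fi _).measurable MeasurableSet.univ, preimage_univ,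
        preimage_univ, measure_univ, one_add_one_eq_two]
    rw [Measure.smul_apply, h2, smul_eq_mul, pow_succ, mul_assoc,
      ENNReal.inv_mul_cancel two_ne_zero ENNReal.ofNat_ne_top, mul_one]
  simp_rw [h1]
  rw [ENNReal.tsum_geometric_add_one, ENNReal.one_sub_inv_two, inv_inv,
    ENNReal.inv_mul_cancel two_ne_zero ENNReal.ofNat_ne_top]

lemma map_Tt_mix {A B : ℕ → ℝ} (h : ∀ n, Ang (A n) (B n)) : (mix A B).map Tt = mix A B := by
  unfold mix
  rw [Measure.map_sum measurable_Tt.aemeasurable]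
  congr 1
  funext n
  rw [Measure.map_smul, map_Tt_kap (h n)]

lemma map_eq_Tt {A B : ℕ → ℝ} (h : ∀ n, Ang (A n) (B n)) :
    ∀ᵐ x ∂(mix A B), billiardMap ann gam x = Tt x := by
  apply ae_mix
  · intro n z
    simp only [fo]
    rw [map_out (h n) (Circle.norm_coe z), Tt_out (h n) (Circle.norm_coe z)]
  · intro n z
    simp only [fi]
    rw [map_in (h n) (Circle.norm_coe z), Tt_in (h n) (Circle.norm_coe z)]

lemma lintegral_top {A B : ℕ → ℝ} (h : ∀ n, Ang (A n) (B n))
    (hc : ∀ n, Real.cos (B n) ≤ Real.exp (-2 ^ (n + 2))) (D : Phase → ℝ × ℝ →L[ℝ] ℝ × ℝ)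
    (hD : ∀ᵐ x ∂(mix A B), HasBilliardDeriv ann gam x (D x)) :
    ∫⁻ x, ENNReal.ofReal (Real.posLog ‖D x‖) ∂(mix A B) = ⊤ := by
  unfold mix at hD ⊢
  rw [Measure.ae_sum_iff] at hD
  rw [lintegral_sum_measure]
  have key : ∀ n : ℕ, 1 ≤ ∫⁻ x, ENNReal.ofReal (Real.posLog ‖D x‖)
      ∂(((2 : ℝ≥0∞)⁻¹ ^ (n + 2)) • kap (A n) (B n)) := by
    intro n
    have h1 := hD n
    have hc0 : ((2 : ℝ≥0∞)⁻¹ ^ (n + 2)) ≠ 0 := by
      exact ENNReal.pow_ne_zero (ENNReal.inv_ne_zero.2 ENNReal.ofNat_ne_top) _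
    rw [Measure.ae_ennreal_smul_measure_iff hc0] at h1
    unfold kap at h1
    rw [ae_add_measure_iff] at h1
    have h2 := h1.1
    -- lower bound on the outer circle
    have hm : MeasurableSet (range (fo (A n))) := (isCompact_range (continuous_fo _)).measurableSet
    have h3 : ∀ᵐ x ∂(lam.map (fo (A n))), x ∈ range (fo (A n)) :=
      (ae_map_iff (p := fun x => x ∈ range (fo (A n)))
        (continuous_fo _).measurable.aemeasurable hm).2
        (Eventually.of_forall fun z => mem_range_self z)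
    have h4 : ∀ᵐ x ∂(lam.map (fo (A n))),
        (2 : ℝ≥0∞) ^ (n + 2) ≤ ENNReal.ofReal (Real.posLog ‖D x‖) := by
      filter_upwards [h2, h3] with x hx hx2
      obtain ⟨z, rfl⟩ := hx2
      have h5 := norm_deriv_ge (h n) (Circle.norm_coe z) hx
      have hcb := (h n).cosb
      have h6 : Real.exp (2 ^ (n + 2)) ≤ ‖D (fo (A n) z)‖ := by
        refine le_trans ?_ h5
        rw [le_div_iff₀ hcb]
        calc Real.exp (2 ^ (n + 2)) * Real.cos (B n)
            ≤ Real.exp (2 ^ (n + 2)) * Real.exp (-2 ^ (n + 2)) := by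
              gcongr
              exact hc n
          _ = 1 := by rw [← Real.exp_add]; simp
      have h7 : (2 : ℝ) ^ (n + 2) ≤ Real.posLog ‖D (fo (A n) z)‖ := by
        have h8 : (2 : ℝ) ^ (n + 2) ≤ Real.log ‖D (fo (A n) z)‖ := by
          rw [Real.le_log_iff_exp_le (lt_of_lt_of_le (Real.exp_pos _) h6)]
          exact h6
        exact h8.trans (le_max_right _ _)
      calc (2 : ℝ≥0∞) ^ (n + 2) = ENNReal.ofReal ((2 : ℝ) ^ (n + 2)) := by
            rw [ENNReal.ofReal_pow (by norm_num)]; norm_num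
        _ ≤ _ := ENNReal.ofReal_le_ofReal h7
    have h9 : (2 : ℝ≥0∞) ^ (n + 2) ≤ ∫⁻ x, ENNReal.ofReal (Real.posLog ‖D x‖)
        ∂(lam.map (fo (A n))) := by
      have h10 := lintegral_mono_ae h4
      have : IsProbabilityMeasure (lam.map (fo (A n))) :=
        Measure.isProbabilityMeasure_map (continuous_fo _).measurable.aemeasurable
      rwa [lintegral_const, measure_univ, mul_one] at h10
    rw [lintegral_smul_measure]
    unfold kap
    rw [lintegral_add_measure, smul_eq_mul]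
    calc (1 : ℝ≥0∞) = (2 : ℝ≥0∞)⁻¹ ^ (n + 2) * 2 ^ (n + 2) := by
          rw [← mul_pow, ENNReal.inv_mul_cancel two_ne_zero ENNReal.ofNat_ne_top, one_pow]
      _ ≤ _ := by
          gcongr
          exact h9.trans le_self_add
  refine top_unique ?_
  calc (⊤ : ℝ≥0∞) = ∑' _ : ℕ, (1 : ℝ≥0∞) :=
        (ENNReal.tsum_const_eq_top_of_ne_zero one_ne_zero).symm
    _ ≤ _ := ENNReal.tsum_le_tsum key

/-- There is a billiard table without corner points (the annulus `1 ≤ |z| ≤ 2`), hence without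
cusps, and a non-periodic invariant probability measure `μ` of its billiard map for which
`log⁺ ‖DT‖` is not integrable. -/
theorem result : ∃ (Q : Set ℂ) (γ : Fin 2 → ℝ → ℂ) (L : Fin 2 → ℝ) (μ : Measure Phase),
    IsTable Q γ L ∧ IsProbabilityMeasure μ ∧
    AEMeasurable (billiardMap Q γ) μ ∧ μ.map (billiardMap Q γ) = μ ∧
    (∀ᵐ x ∂μ, IsRegular Q γ x) ∧
    (∀ᵐ x ∂μ, ∀ n : ℕ, 1 ≤ n → (billiardMap Q γ)^[n] x ≠ x) ∧
    (∀ᵐ x ∂μ, ∃ D, HasBilliardDeriv Q γ x D) ∧
    ∀ D : Phase → ℝ × ℝ →L[ℝ] ℝ × ℝ, (∀ᵐ x ∂μ, HasBilliardDeriv Q γ x (D x)) →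
      ∫⁻ x, ENNReal.ofReal (Real.posLog ‖D x‖) ∂μ = ⊤ := by
  obtain ⟨A, B, hAB⟩ := exists_seq
  have hA : ∀ n, Ang (A n) (B n) := fun n => (hAB n).1
  have hT := map_eq_Tt hA
  refine ⟨ann, gam, len, mix A B, isTable_ann, isProb_mix A B, ?_, ?_, ?_, ?_, ?_, ?_⟩
  · exact ⟨Tt, measurable_Tt, hT⟩
  · rw [Measure.map_congr hT, map_Tt_mix hA]
  · exact ae_mix (fun n z => regular_out (hA n) (Circle.norm_coe z))
      (fun n z => regular_in (hA n) (Circle.norm_coe z))
  · refine ae_mix (fun n z k hk => ?_) (fun n z k hk => ?_)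
    · have := orb_not_periodic (hA n) (hAB n).2.1 (Circle.norm_coe z) 0 hk
      rwa [orb_zero] at this
    · have h1 : ‖(z : ℂ) * exp (I * ((-(B n - A n) : ℝ) : ℂ))‖ = 1 := by
        rw [norm_mul, Circle.norm_coe, norm_exp_I, one_mul]
      have := orb_not_periodic (hA n) (hAB n).2.1 h1 1 hk
      rwa [orb_one] at this
  · exact ae_mix (fun n z => deriv_out (hA n) (Circle.norm_coe z))
      (fun n z => deriv_in (hA n) (Circle.norm_coe z))
  · intro D hD
    exact lintegral_top hA (fun n => (hAB n).2.2) D hD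

end

end Pool.Agent.Results.MP_94eb8e_an.AnnularTable
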